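import Mathlib

set_option autoImplicit false

/-!
# The sharp upper bound of the Gromov mass of a unit ball: definitions and statements
-/

namespace Pool.Agent.W369.GM

open MeasureTheory Set Metric
open scoped RealInnerProductSpace

/-- Euclidean space -/
abbrev E (d : ℕ) : Type := EuclideanSpace ℝ (Fin d)

variable {d : ℕ}

/-- the absolute value of the determinant of `d` vectors -/
noncomputable def dt (v : Fin d → E d) : ℝ := |(Matrix.of fun i j => v i j).det|

/-- all the determinants of `d` vectors of `K` are at most `D` in absolute value -/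
def DB (K : Set (E d)) (D : ℝ) : Prop := ∀ v : Fin d → E d, (∀ i, v i ∈ K) → dt v ≤ D

/-- the slice of `K` over the orthogonal projection of `x` along `u` -/
def slice (u : E d) (K : Set (E d)) (x : E d) : Set ℝ := {t | x - ⟪u, x⟫ • u + t • u ∈ K}

/-- the Steiner symmetral of `K` in direction `u` -/
def St (u : E d) (K : Set (E d)) : Set (E d) :=
  {x | (slice u K x).Nonempty ∧ ENNReal.ofReal (2 * |⟪u, x⟫|) ≤ volume (slice u K x)}

/-- the volume of the unit ball -/
noncomputable def kap (d : ℕ) : ENNReal := volume (closedBall (0 : E d) 1)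

/-- symmetric convex bodies -/
structure Body (M : Set (E d)) : Prop where
  compact : IsCompact M
  convex : Convex ℝ M
  symm : ∀ x ∈ M, -x ∈ M
  inter : (interior M).Nonempty

/-- `M` is extremal: all determinants are at most `D`, and the volume is `κ_d D` -/
structure Extr (M : Set (E d)) (D : ℝ) : Prop where
  compact : IsCompact M
  pos : 0 < D
  db : DB M D
  vol : volume M = ENNReal.ofReal D * kap d

/-- the largest element of a slice -/
noncomputable def top (u : E d) (M : Set (E d)) (x : E d) : ℝ := sSup (slice u M x)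

/-- the smallest element of a slice -/
noncomputable def bot (u : E d) (M : Set (E d)) (x : E d) : ℝ := sInf (slice u M x)

/-- the midpoint of a slice -/
noncomputable def mid (u : E d) (M : Set (E d)) (x : E d) : ℝ := (top u M x + bot u M x) / 2

/-- half the length of a slice -/
noncomputable def hf (u : E d) (M : Set (E d)) (x : E d) : ℝ := (top u M x - bot u M x) / 2

/-- `x` is orthogonal to `u` and in the relative interior of the projection of `M` (radially) -/
def Inn (u : E d) (M : Set (E d)) (x : E d) : Prop :=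
  ⟪u, x⟫ = 0 ∧ ∃ c : ℝ, 1 < c ∧ (slice u M (c • x)).Nonempty

/-- `M` has an affine reflection in direction `u` -/
def Refl (M : Set (E d)) (u : E d) : Prop :=
  u ≠ 0 ∧ ∃ θ : E d →ₗ[ℝ] ℝ, θ u = 1 ∧ ∀ x ∈ M, x - (2 * θ x) • u ∈ M

/-! ## Statements -/

/-- the Steiner symmetral of a compact set is compact -/
def S_STC : Prop := ∀ (d : ℕ) (u : E d) (K : Set (E d)), ‖u‖ = 1 → IsCompact K → IsCompact (St u K)

/-- it has the same volume -/
def S_STV : Prop := ∀ (d : ℕ) (u : E d) (K : Set (E d)), ‖u‖ = 1 → IsCompact K →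
  volume (St u K) = volume K

/-- the maximal determinant does not increase -/
def S_STD : Prop := ∀ (d : ℕ) (u : E d) (K : Set (E d)) (D : ℝ), ‖u‖ = 1 → IsCompact K →
  DB K D → DB (St u K) D

/-- balls and contact points with spheres -/
def S_STR : Prop := ∀ (d : ℕ) (u : E d) (K : Set (E d)) (r : ℝ), ‖u‖ = 1 → IsCompact K →
  K ⊆ closedBall 0 r → St u K ⊆ closedBall 0 r ∧
    ∀ x ∈ St u K, ‖x‖ = r → x ∈ K ∧ x - (2 * ⟪u, x⟫) • u ∈ K

/-- existence of a set of minimal circumradius -/
def S_MIN : Prop := ∀ (d : ℕ) (D : ℝ) (V : ENNReal) (K : Set (E d)), IsCompact K → K.Nonempty →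
  V ≤ volume K → DB K D →
  ∃ (L : Set (E d)) (r : ℝ), IsCompact L ∧ L.Nonempty ∧ V ≤ volume L ∧ DB L D ∧
    L ⊆ closedBall 0 r ∧ ∀ (L' : Set (E d)) (r' : ℝ), IsCompact L' → L'.Nonempty →
      V ≤ volume L' → DB L' D → L' ⊆ closedBall 0 r' → r ≤ r'

/-- if a point of the sphere is missing, finitely many symmetrisations give a set without points
on the sphere -/
def S_SPREAD : Prop := ∀ (d : ℕ) (L : Set (E d)) (D r : ℝ) (V : ENNReal) (z : E d), 0 < r →
  IsCompact L → 0 < V → V ≤ volume L → DB L D → L ⊆ closedBall 0 r → ‖z‖ = r → z ∉ L →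
  ∃ L' : Set (E d), IsCompact L' ∧ L'.Nonempty ∧ V ≤ volume L' ∧ DB L' D ∧ ∀ x ∈ L', ‖x‖ < r

/-- the inequality -/
def S_INEQ : Prop := ∀ (d : ℕ) (K : Set (E d)) (D : ℝ), 0 < d → 0 ≤ D → IsCompact K → DB K D →
  volume K ≤ ENNReal.ofReal D * kap d

/-- every boundary point of an extremal set is in an extremal frame -/
def S_EXT : Prop := ∀ (d : ℕ) (K : Set (E d)) (D : ℝ), 0 < d → Extr K D → ∀ x ∈ frontier K,
  ∃ v : Fin d → E d, (∀ i, v i ∈ K) ∧ dt v = D ∧ ∃ i, v i = x

/-- the local inequality for the midpoints -/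
def S_LOC : Prop := ∀ (d : ℕ) (M : Set (E d)) (D : ℝ) (u : E d), Body M → Extr M D → ‖u‖ = 1 →
  ∀ x₀ : E d, Inn u M x₀ → ∃ (α : ℝ) (ψ χ : E d →ₗ[ℝ] ℝ),
    (∀ x : E d, ⟪u, x⟫ = 0 → (slice u M x).Nonempty → |mid u M x - ψ x| ≤ α - χ x - hf u M x) ∧
      α - χ x₀ - hf u M x₀ = 0

/-- homogeneity of the midpoints -/
def S_HOM : Prop := ∀ (d : ℕ) (M : Set (E d)) (D : ℝ) (u : E d), Body M → Extr M D → ‖u‖ = 1 →
  ∀ x : E d, Inn u M x → ∀ s : ℝ, 0 < s → s ≤ 1 → mid u M (s • x) = s * mid u M x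

/-- an affine reflection at the directions of differentiability of the norm -/
def S_REF : Prop := ∀ (d : ℕ) (M : Set (E d)) (D : ℝ) (u : E d), Body M → Extr M D → u ≠ 0 →
  DifferentiableAt ℝ (gauge M) u → Refl M u

/-- density of the points of differentiability -/
def S_DENSE : Prop := ∀ (d : ℕ) (M : Set (E d)), 0 < d → Body M →
  Dense {u : E d | u ≠ 0 ∧ DifferentiableAt ℝ (gauge M) u}

/-- the normalisation by the matrix of second moments -/
def S_INER : Prop := ∀ (d : ℕ) (M : Set (E d)), Body M → ∃ A : E d ≃ₗ[ℝ] E d,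
  ∀ R : E d ≃ₗ[ℝ] E d, R '' (A '' M) = A '' M → ∀ x, ‖R x‖ = ‖x‖

/-- a body with an affine reflection in a dense set of directions is an ellipsoid -/
def S_ELL : Prop := ∀ (d : ℕ) (M : Set (E d)), 0 < d → Body M → Dense {u : E d | Refl M u} →
  ∃ A : E d ≃ₗ[ℝ] E d, M = A '' closedBall 0 1

/-- the volume of a cross-polytope -/
def S_CROSS : Prop := ∀ (d : ℕ) (v : Fin d → E d), 0 < d →
  volume (convexHull ℝ (Set.range v ∪ Set.range (fun i => -v i))) =
    ENNReal.ofReal (2 ^ d / (d.factorial : ℝ) * dt v)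

/-- extremal bodies are ellipsoids -/
def S_EQ : Prop := ∀ (d : ℕ) (M : Set (E d)) (D : ℝ), 0 < d → Body M → Extr M D →
  ∃ A : E d ≃ₗ[ℝ] E d, M = A '' closedBall 0 1

end Pool.Agent.W369.GM
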