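import Mathlib
import Pool.Agent.W369.GM.Defs

set_option autoImplicit false

/-!
# Basic lemmas on slices and determinants
-/

namespace Pool.Agent.W369.GM

open MeasureTheory Set Metric
open scoped RealInnerProductSpace

variable {d : ℕ}

lemma slice_closed (u : E d) (K : Set (E d)) (x : E d) (hK : IsClosed K) :
    IsClosed (slice u K x) := by
  have hc : Continuous fun t : ℝ => x - ⟪u, x⟫ • u + t • u := by fun_prop
  exact hK.preimage hc

lemma inner_slice (u : E d) (hu : ‖u‖ = 1) (x : E d) (t : ℝ) :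
    ⟪u, x - ⟪u, x⟫ • u + t • u⟫ = t := by
  rw [inner_add_right, inner_sub_right, inner_smul_right, inner_smul_right,
    real_inner_self_eq_norm_sq, hu]
  ring

lemma slice_compact (u : E d) (hu : ‖u‖ = 1) (K : Set (E d)) (x : E d) (hK : IsCompact K) :
    IsCompact (slice u K x) := by
  apply Metric.isCompact_of_isClosed_isBounded (slice_closed u K x hK.isClosed)
  obtain ⟨R, hR⟩ := hK.isBounded.exists_norm_le
  rw [isBounded_iff_forall_norm_le]
  refine ⟨R, fun t ht => ?_⟩
  have h1 := hR _ ht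
  have h2 := abs_real_inner_le_norm u (x - ⟪u, x⟫ • u + t • u)
  rw [inner_slice u hu, hu, one_mul] at h2
  exact h2.trans h1

lemma slice_convex (u : E d) (K : Set (E d)) (x : E d) (hK : Convex ℝ K) :
    Convex ℝ (slice u K x) := by
  intro s hs t ht a b ha hb hab
  have h1 := hK hs ht ha hb hab
  show x - ⟪u, x⟫ • u + (a • s + b • t) • u ∈ K
  have e : a • (x - ⟪u, x⟫ • u + s • u) + b • (x - ⟪u, x⟫ • u + t • u) =
      (a + b) • (x - ⟪u, x⟫ • u) + (a • s + b • t) • u := by
    simp only [smul_eq_mul]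
    module
  rw [e, hab, one_smul] at h1
  exact h1

lemma slice_add (u : E d) (hu : ‖u‖ = 1) (K : Set (E d)) (x : E d) (t : ℝ) :
    slice u K (x + t • u) = slice u K x := by
  ext s
  show x + t • u - ⟪u, x + t • u⟫ • u + s • u ∈ K ↔ x - ⟪u, x⟫ • u + s • u ∈ K
  have e : x + t • u - ⟪u, x + t • u⟫ • u + s • u = x - ⟪u, x⟫ • u + s • u := by
    rw [inner_add_right, inner_smul_right, real_inner_self_eq_norm_sq, hu]
    module
  rw [e]

lemma mem_slice_iff (u : E d) (hu : ‖u‖ = 1) (M : Set (E d)) (hM : IsCompact M)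
    (hc : Convex ℝ M) (x : E d) (hx : (slice u M x).Nonempty) (t : ℝ) :
    t ∈ slice u M x ↔ bot u M x ≤ t ∧ t ≤ top u M x := by
  have hcp := slice_compact u hu M x hM
  constructor
  · intro h
    exact ⟨csInf_le hcp.bddBelow h, le_csSup hcp.bddAbove h⟩
  · rintro ⟨h1, h2⟩
    have h3 : sInf (slice u M x) ∈ slice u M x := hcp.sInf_mem hx
    have h4 : sSup (slice u M x) ∈ slice u M x := hcp.sSup_mem hx
    exact (slice_convex u M x hc).ordConnected.out h3 h4 ⟨h1, h2⟩

lemma bot_le_top (u : E d) (hu : ‖u‖ = 1) (M : Set (E d)) (hM : IsCompact M)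
    (x : E d) (hx : (slice u M x).Nonempty) : bot u M x ≤ top u M x := by
  have hcp := slice_compact u hu M x hM
  exact csInf_le_csSup hx hcp.bddBelow hcp.bddAbove

lemma slice_eq_Icc (u : E d) (hu : ‖u‖ = 1) (M : Set (E d)) (hM : IsCompact M)
    (hc : Convex ℝ M) (x : E d) (hx : (slice u M x).Nonempty) :
    slice u M x = Icc (bot u M x) (top u M x) := by
  ext t
  rw [mem_slice_iff u hu M hM hc x hx, mem_Icc]

lemma mem_St_iff (u : E d) (hu : ‖u‖ = 1) (M : Set (E d)) (hM : IsCompact M)
    (hc : Convex ℝ M) (x : E d) :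
    x ∈ St u M ↔ (slice u M x).Nonempty ∧ |⟪u, x⟫| ≤ hf u M x := by
  constructor
  · rintro ⟨h1, h2⟩
    refine ⟨h1, ?_⟩
    rw [slice_eq_Icc u hu M hM hc x h1, Real.volume_Icc] at h2
    have h3 := bot_le_top u hu M hM x h1
    rw [ENNReal.ofReal_le_ofReal_iff (by linarith)] at h2
    unfold hf
    linarith
  · rintro ⟨h1, h2⟩
    refine ⟨h1, ?_⟩
    rw [slice_eq_Icc u hu M hM hc x h1, Real.volume_Icc]
    apply ENNReal.ofReal_le_ofReal
    unfold hf at h2
    linarith

/-- a point of a slice gives a point of the set -/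
lemma point_mem (u : E d) (M : Set (E d)) (x : E d) (t : ℝ) (h : t ∈ slice u M x) :
    x + (t - ⟪u, x⟫) • u ∈ M := by
  have h1 : x - ⟪u, x⟫ • u + t • u ∈ M := h
  have e : x - ⟪u, x⟫ • u + t • u = x + (t - ⟪u, x⟫) • u := by module
  rwa [e] at h1

/-- an orthonormal basis with a given vector -/
lemma exists_basis (u : E d) (hu : ‖u‖ = 1) (k : Fin d) :
    ∃ b : OrthonormalBasis (Fin d) ℝ (E d), b k = u := by
  have hv : Orthonormal ℝ (({k} : Set (Fin d)).domRestrict (fun _ : Fin d => u)) := by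
    constructor
    · intro i
      exact hu
    · intro i j hij
      exfalso
      apply hij
      have hi := i.2
      have hj := j.2
      rw [mem_singleton_iff] at hi hj
      exact Subtype.ext (hi.trans hj.symm)
  obtain ⟨b, hb⟩ := hv.exists_orthonormalBasis_extension_of_card_eq
    (by rw [finrank_euclideanSpace])
  exact ⟨b, hb k rfl⟩

/-- the determinant in an orthonormal basis -/
lemma dt_basis (b : OrthonormalBasis (Fin d) ℝ (E d)) (v : Fin d → E d) :
    dt v = |(Matrix.of fun i j => ⟪b j, v i⟫).det| := by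
  set B : Matrix (Fin d) (Fin d) ℝ := Matrix.of fun j l => b j l with hB
  have h1 : (Matrix.of fun i j => ⟪b j, v i⟫) = (Matrix.of fun i j => v i j) * B.transpose := by
    ext i j
    rw [Matrix.mul_apply, Matrix.of_apply, PiLp.inner_apply]
    rfl
  have h2 : B * B.transpose = 1 := by
    ext i j
    rw [Matrix.mul_apply, Matrix.one_apply]
    have h3 := b.orthonormal
    rw [orthonormal_iff_ite] at h3
    have h4 := h3 j i
    rw [PiLp.inner_apply] at h4
    have h5 : ∑ l, B i l * B.transpose l j = ∑ l, ⟪b j l, b i l⟫ := rfl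
    rw [h5, h4]
    by_cases hij : i = j
    · rw [if_pos hij, if_pos hij.symm]
    · rw [if_neg hij, if_neg (Ne.symm hij)]
  have h3 : |B.det| = 1 := by
    have h4 : B.det * B.det = 1 := by
      have := congrArg Matrix.det h2
      rwa [Matrix.det_mul, Matrix.det_transpose, Matrix.det_one] at this
    have h5 : |B.det| * |B.det| = 1 := by rw [abs_mul_abs_self, h4]
    have h6 := abs_nonneg B.det
    nlinarith
  rw [h1, Matrix.det_mul, Matrix.det_transpose, abs_mul, h3, mul_one]
  rfl

end Pool.Agent.W369.GM
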