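import Mathlib
import Pool.Agent.W369.GM.Defs

set_option autoImplicit false

/-!
# Spreading a missing cap; the inequality
-/

namespace Pool.Agent.W369.GM

open MeasureTheory Set Metric Filter Topology
open scoped RealInnerProductSpace

variable {d : ℕ}

lemma spread_list (hSTC : S_STC) (hSTV : S_STV) (hSTD : S_STD) (hSTR : S_STR)
    (L : Set (E d)) (D r : ℝ) (V : ENNReal) (hL : IsCompact L) (hV : V ≤ volume L)
    (hDB : DB L D) (hr : L ⊆ closedBall 0 r) (us : List (E d)) (hus : ∀ u ∈ us, ‖u‖ = 1) :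
    ∃ L' : Set (E d), IsCompact L' ∧ V ≤ volume L' ∧ DB L' D ∧ L' ⊆ closedBall 0 r ∧
      ∀ x ∈ L', ‖x‖ = r → x ∈ L ∧ ∀ u ∈ us, x - (2 * ⟪u, x⟫) • u ∈ L := by
  induction us with
  | nil =>
    refine ⟨L, hL, hV, hDB, hr, fun x hx _ => ⟨hx, fun u hu => ?_⟩⟩
    simp at hu
  | cons u us ih =>
    obtain ⟨L₁, h1, h2, h3, h4, h5⟩ := ih fun v hv => hus v (List.mem_cons_of_mem _ hv)
    have hu : ‖u‖ = 1 := hus u List.mem_cons_self
    obtain ⟨h6, h7⟩ := hSTR d u L₁ r hu h1 h4
    refine ⟨St u L₁, hSTC d u L₁ hu h1, by rw [hSTV d u L₁ hu h1]; exact h2,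
      hSTD d u L₁ D hu h1 h3, h6, fun x hx hxr => ?_⟩
    obtain ⟨h8, h9⟩ := h7 x hx hxr
    obtain ⟨h10, h11⟩ := h5 x h8 hxr
    refine ⟨h10, fun v hv => ?_⟩
    rcases List.mem_cons.mp hv with rfl | hv
    · have hnorm : ‖x - (2 * ⟪v, x⟫) • v‖ = r := by
        have e : ‖x - (2 * ⟪v, x⟫) • v‖ ^ 2 = ‖x‖ ^ 2 := by
          rw [norm_sub_sq_real, inner_smul_right, norm_smul, hu, mul_one, Real.norm_eq_abs,
            sq_abs, real_inner_comm]
          ring
        rw [hxr] at e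
        have hr0 : 0 ≤ r := by rw [← hxr]; exact norm_nonneg _
        exact (pow_left_inj₀ (norm_nonneg _) hr0 two_ne_zero).mp e
      exact (h5 _ h9 hnorm).1
    · exact h11 v hv

theorem spread : S_STC → S_STV → S_STD → S_STR → S_SPREAD := by
  intro hSTC hSTV hSTD hSTR d L D r V z hr0 hL hV0 hV hDB hr hz hzL
  classical
  set O : E d → Set (E d) := fun y => if y = z then Lᶜ else
    {x | x - (2 * ⟪‖y - z‖⁻¹ • (y - z), x⟫) • (‖y - z‖⁻¹ • (y - z)) ∉ L} with hO
  have hOn : ∀ y ∈ sphere (0 : E d) r, O y ∈ 𝓝 y := by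
    intro y hy
    have hyr : ‖y‖ = r := by rwa [mem_sphere_zero_iff_norm] at hy
    by_cases h : y = z
    · have e : O y = Lᶜ := by rw [hO]; simp [h]
      rw [e, h]
      exact hL.isClosed.isOpen_compl.mem_nhds hzL
    · have e : O y = {x | x - (2 * ⟪‖y - z‖⁻¹ • (y - z), x⟫) • (‖y - z‖⁻¹ • (y - z)) ∉ L} := by
        rw [hO]; simp [h]
      rw [e]
      have hcont : Continuous fun x : E d =>
          x - (2 * ⟪‖y - z‖⁻¹ • (y - z), x⟫) • (‖y - z‖⁻¹ • (y - z)) := by fun_prop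
      apply (hL.isClosed.isOpen_compl.preimage hcont).mem_nhds
      show y - (2 * ⟪‖y - z‖⁻¹ • (y - z), y⟫) • (‖y - z‖⁻¹ • (y - z)) ∈ Lᶜ
      have hne : ‖y - z‖ ≠ 0 := by rw [norm_ne_zero_iff, sub_ne_zero]; exact h
      have e2 : y - (2 * ⟪‖y - z‖⁻¹ • (y - z), y⟫) • (‖y - z‖⁻¹ • (y - z)) = z := by
        have h1 : ‖y - z‖ ^ 2 = 2 * ⟪y - z, y⟫ := by
          rw [norm_sub_sq_real, hyr, hz, inner_sub_left, real_inner_self_eq_norm_sq, hyr,
            real_inner_comm]
          ring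
        rw [inner_smul_left, smul_smul]
        have h2 : 2 * ((starRingEnd ℝ) ‖y - z‖⁻¹ * ⟪y - z, y⟫) * ‖y - z‖⁻¹ = 1 := by
          rw [starRingEnd_apply, star_trivial]
          have h3 : 2 * (‖y - z‖⁻¹ * ⟪y - z, y⟫) * ‖y - z‖⁻¹ =
              (2 * ⟪y - z, y⟫) * (‖y - z‖⁻¹) ^ 2 := by ring
          rw [h3, ← h1, inv_pow, mul_inv_cancel₀ (pow_ne_zero 2 hne)]
        rw [h2, one_smul]
        abel
      rw [e2]
      exact hzL
  obtain ⟨T, hT, hcov⟩ := (isCompact_sphere (0 : E d) r).elim_nhds_subcover O hOn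
  set us : List (E d) := ((T.filter (fun y => y ≠ z)).toList).map
    (fun y => ‖y - z‖⁻¹ • (y - z)) with hus
  obtain ⟨L', h1, h2, h3, h4, h5⟩ := spread_list hSTC hSTV hSTD hSTR L D r V hL hV hDB hr us (by
    intro u hu
    rw [hus, List.mem_map] at hu
    obtain ⟨y, hy, rfl⟩ := hu
    rw [Finset.mem_toList, Finset.mem_filter] at hy
    have hne : ‖y - z‖ ≠ 0 := by rw [norm_ne_zero_iff, sub_ne_zero]; exact hy.2
    rw [norm_smul, norm_inv, norm_norm, inv_mul_cancel₀ hne])
  refine ⟨L', h1, ?_, h2, h3, fun x hx => ?_⟩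
  · by_contra hcon
    rw [Set.not_nonempty_iff_eq_empty] at hcon
    rw [hcon, measure_empty] at h2
    exact absurd h2 (not_le.mpr hV0)
  · have hxr := h4 hx
    rw [mem_closedBall_zero_iff] at hxr
    rcases hxr.lt_or_eq with h | h
    · exact h
    · exfalso
      obtain ⟨h6, h7⟩ := h5 x hx h
      have h8 : x ∈ sphere (0 : E d) r := by rwa [mem_sphere_zero_iff_norm]
      obtain ⟨y, hy, hxy⟩ := Set.mem_iUnion₂.mp (hcov h8)
      by_cases hyz : y = z
      · have e : O y = Lᶜ := by rw [hO]; simp [hyz]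
        rw [e] at hxy
        exact hxy h6
      · have e : O y = {x | x - (2 * ⟪‖y - z‖⁻¹ • (y - z), x⟫) • (‖y - z‖⁻¹ • (y - z)) ∉ L} := by
          rw [hO]; simp [hyz]
        rw [e] at hxy
        apply hxy
        apply h7
        rw [hus, List.mem_map]
        exact ⟨y, by rw [Finset.mem_toList, Finset.mem_filter]; exact ⟨hy, hyz⟩, rfl⟩

lemma kap_pos (d : ℕ) : kap d ≠ 0 := by
  unfold kap
  exact (measure_closedBall_pos volume 0 one_pos).ne'

lemma kap_ne_top (d : ℕ) : kap d ≠ ⊤ := by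
  unfold kap
  exact measure_closedBall_lt_top.ne

theorem ineq : S_MIN → S_SPREAD → S_INEQ := by
  intro hMIN hSPR d K D hd hD hK hDB
  by_contra hcon
  push Not at hcon
  have hV0 : 0 < volume K := lt_of_le_of_lt (zero_le) hcon
  have hKne : K.Nonempty := by
    rw [Set.nonempty_iff_ne_empty]
    rintro rfl
    simp at hV0
  obtain ⟨L, r, hL, hLne, hLV, hLD, hLr, hmin⟩ := hMIN d D (volume K) K hK hKne le_rfl hDB
  have hr0 : 0 ≤ r := by
    obtain ⟨x, hx⟩ := hLne
    have := hLr hx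
    rw [mem_closedBall_zero_iff] at this
    exact (norm_nonneg _).trans this
  have h1 : volume K ≤ ENNReal.ofReal (r ^ d) * kap d := by
    refine (hLV.trans (measure_mono hLr)).trans ?_
    rw [Measure.addHaar_closedBall' _ _ hr0, finrank_euclideanSpace, Fintype.card_fin]
    rfl
  have h2 : ENNReal.ofReal D < ENNReal.ofReal (r ^ d) := by
    have h3 := hcon.trans_le h1
    exact lt_of_mul_lt_mul_right' h3
  have h3 : D < r ^ d := (ENNReal.ofReal_lt_ofReal_iff_of_nonneg hD).mp h2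
  have hrpos : 0 < r := by
    rcases hr0.lt_or_eq with h | h
    · exact h
    · rw [← h, zero_pow hd.ne'] at h3
      linarith
  by_cases hall : ∀ z : E d, ‖z‖ = r → z ∈ L
  · have h4 := hLD (fun i => r • EuclideanSpace.single i (1 : ℝ)) (by
      intro i
      apply hall
      rw [norm_smul, PiLp.norm_single, norm_one, mul_one, Real.norm_eq_abs,
        abs_of_pos hrpos])
    have h5 : dt (fun i : Fin d => r • EuclideanSpace.single i (1 : ℝ)) = r ^ d := by
      unfold dt
      have e : (Matrix.of fun i j : Fin d => (r • EuclideanSpace.single i (1 : ℝ) : E d) j) =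
          Matrix.diagonal (fun _ => r) := by
        ext i j
        rw [Matrix.of_apply, Matrix.diagonal_apply]
        by_cases hij : i = j
        · subst hij
          simp
        · simp [hij, Ne.symm hij]
      rw [e, Matrix.det_diagonal, Finset.prod_const, Finset.card_univ, Fintype.card_fin]
      exact abs_of_pos (pow_pos hrpos d)
    rw [h5] at h4
    linarith
  · push Not at hall
    obtain ⟨z, hz, hzL⟩ := hall
    obtain ⟨L', g1, g2, g3, g4, g5⟩ := hSPR d L D r (volume K) z hrpos hL hV0 hLV hLD hLr hz hzL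
    obtain ⟨x₀, hx₀, hmax⟩ := g1.exists_isMaxOn g2 (continuous_norm.continuousOn)
    have h6 := hmin L' ‖x₀‖ g1 g2 g3 g4 (fun x hx => by
      rw [mem_closedBall_zero_iff]
      exact hmax hx)
    have h7 := g5 x₀ hx₀
    linarith

end Pool.Agent.W369.GM
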