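import Mathlib
import Pool.Agent.W369.GM.Defs
import Pool.Agent.W369.GM.SPREAD

set_option autoImplicit false

/-!
# Every boundary point of an extremal set is in an extremal frame
-/

namespace Pool.Agent.W369.GM

open MeasureTheory Set Metric Filter Topology
open scoped RealInnerProductSpace

variable {d : ℕ}

lemma continuous_dt : Continuous (dt : (Fin d → E d) → ℝ) := by
  unfold dt
  apply Continuous.abs
  apply Continuous.matrix_det
  apply continuous_matrix
  intro i j
  show Continuous fun v : Fin d → E d => (v i) j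
  fun_prop

theorem ext : S_INEQ → S_EXT := by
  intro hINEQ d K D hd hE x hx
  have hKc := hE.compact
  have hxK : x ∈ K := hKc.isClosed.frontier_subset hx
  have hvolK : volume K ≠ ⊤ := hKc.measure_lt_top.ne
  set ρ : ℕ → ℝ := fun n => 1 / ((n : ℝ) + 1) with hρ
  have hρpos : ∀ n, 0 < ρ n := fun n => by rw [hρ]; positivity
  have hρ1 : ∀ n, ρ n ≤ 1 := fun n => by
    rw [hρ]
    dsimp only
    rw [div_le_one (by positivity)]
    linarith [(Nat.cast_nonneg n : (0 : ℝ) ≤ n)]
  have hρ0 : Tendsto ρ atTop (𝓝 0) := tendsto_one_div_add_atTop_nhds_zero_nat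
  have hex : ∀ n : ℕ, ∃ v : Fin d → E d, (∀ i, v i ∈ K ∪ closedBall x (ρ n)) ∧ D < dt v := by
    intro n
    by_contra hcon
    push Not at hcon
    have h1 : DB (K ∪ closedBall x (ρ n)) D := hcon
    have h2 := hINEQ d _ D hd hE.pos.le (hKc.union (isCompact_closedBall x (ρ n))) h1
    rw [← hE.vol] at h2
    have hxc : x ∈ closure Kᶜ := by
      rw [frontier_eq_closure_inter_closure] at hx
      exact hx.2
    obtain ⟨y, hy1, hy2⟩ := mem_closure_iff.mp hxc (ball x (ρ n)) isOpen_ball
      (mem_ball_self (hρpos n))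
    have hO : IsOpen (ball x (ρ n) ∩ Kᶜ) := isOpen_ball.inter hKc.isClosed.isOpen_compl
    have hOpos : 0 < volume (ball x (ρ n) ∩ Kᶜ) := hO.measure_pos volume ⟨y, hy1, hy2⟩
    have h3 : volume K + volume (ball x (ρ n) ∩ Kᶜ) ≤ volume (K ∪ closedBall x (ρ n)) := by
      rw [← measure_union _ hO.measurableSet]
      · apply measure_mono
        apply Set.union_subset_union_right
        exact (Set.inter_subset_left).trans ball_subset_closedBall
      · rw [Set.disjoint_left]
        intro z hz hz'
        exact hz'.2 hz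
    have h4 := h3.trans h2
    have h5 : volume K < volume K + volume (ball x (ρ n) ∩ Kᶜ) :=
      ENNReal.lt_add_right hvolK hOpos.ne'
    exact absurd h4 (not_le.mpr h5)
  choose v hv hvD using hex
  have hcomp : IsCompact (Set.pi univ (fun _ : Fin d => K ∪ closedBall x 1)) :=
    isCompact_univ_pi fun _ => hKc.union (isCompact_closedBall x 1)
  have hmem : ∀ n, v n ∈ Set.pi univ (fun _ : Fin d => K ∪ closedBall x 1) := by
    intro n i _
    rcases hv n i with h | h
    · exact Or.inl h
    · exact Or.inr (closedBall_subset_closedBall (hρ1 n) h)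
  obtain ⟨w, -, φ, hφ, hlim⟩ := hcomp.tendsto_subseq hmem
  have hlimi : ∀ i, Tendsto (fun n => v (φ n) i) atTop (𝓝 (w i)) := fun i =>
    (tendsto_pi_nhds.mp hlim) i
  have hρφ : Tendsto (fun n => ρ (φ n)) atTop (𝓝 0) := hρ0.comp hφ.tendsto_atTop
  -- if `w i ≠ x` then eventually not in the small ball
  have hfar : ∀ i, w i ≠ x → ∀ᶠ n in atTop, v (φ n) i ∉ closedBall x (ρ (φ n)) := by
    intro i hi
    have h1 : Tendsto (fun n => dist (v (φ n) i) x - ρ (φ n)) atTop (𝓝 (dist (w i) x - 0)) :=
      ((hlimi i).dist tendsto_const_nhds).sub hρφ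
    rw [sub_zero] at h1
    have h2 : 0 < dist (w i) x := dist_pos.mpr hi
    filter_upwards [h1.eventually (lt_mem_nhds h2)] with n hn hcon
    rw [mem_closedBall] at hcon
    linarith
  have hwK : ∀ i, w i ∈ K := by
    intro i
    by_cases hi : w i = x
    · rw [hi]; exact hxK
    · have h1 : ∀ᶠ n in atTop, v (φ n) i ∈ K := by
        filter_upwards [hfar i hi] with n hn
        rcases hv (φ n) i with h | h
        · exact h
        · exact absurd h hn
      exact hKc.isClosed.mem_of_tendsto (hlimi i) h1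
  have hDw : D ≤ dt w := by
    have h1 : Tendsto (fun n => dt (v (φ n))) atTop (𝓝 (dt w)) :=
      (continuous_dt.tendsto w).comp hlim
    exact ge_of_tendsto' h1 fun n => (hvD (φ n)).le
  refine ⟨w, hwK, le_antisymm (hE.db w hwK) hDw, ?_⟩
  by_contra hcon
  push Not at hcon
  have h1 : ∀ᶠ n in atTop, ∀ i, v (φ n) i ∉ closedBall x (ρ (φ n)) :=
    eventually_all.mpr fun i => hfar i (hcon i)
  obtain ⟨n, hn⟩ := h1.exists
  have h2 : ∀ i, v (φ n) i ∈ K := by
    intro i
    rcases hv (φ n) i with h | h
    · exact h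
    · exact absurd h (hn i)
  have h3 := hE.db _ h2
  have h4 := hvD (φ n)
  linarith

end Pool.Agent.W369.GM
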