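import Mathlib
import Pool.Agent.W369.GM.Defs

set_option autoImplicit false

/-!
# Normalisation by second moments
-/

namespace Pool.Agent.W369.GM

open MeasureTheory Set Metric Filter Topology Module
open scoped RealInnerProductSpace

variable {d : ℕ}

lemma integral_image_lin (L : E d ≃ₗ[ℝ] E d) (S : Set (E d)) (hS : IsCompact S) (g : E d → ℝ) :
    ∫ z in L '' S, g z = |LinearMap.det (L : E d →ₗ[ℝ] E d)| * ∫ z in S, g (L z) := by
  have h := integral_image_eq_integral_abs_det_fderiv_smul (μ := (volume : Measure (E d)))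
    (s := S) (f := fun z => L z) (f' := fun _ => (L.toContinuousLinearEquiv : E d →L[ℝ] E d))
    hS.measurableSet
    (fun x _ => (L.toContinuousLinearEquiv : E d →L[ℝ] E d).hasFDerivWithinAt)
    L.injective.injOn g
  rw [h, ← integral_const_mul]
  rfl

lemma cont_integrable (M : Set (E d)) (hM : IsCompact M) (x y : E d) :
    IntegrableOn (fun z => ⟪x, z⟫ * ⟪y, z⟫) M := by
  apply ContinuousOn.integrableOn_compact hM
  fun_prop

/-- the bilinear form of second moments -/
noncomputable def BM (M : Set (E d)) (hM : IsCompact M) : LinearMap.BilinForm ℝ (E d) :=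
  LinearMap.mk₂ ℝ (fun x y => ∫ z in M, ⟪x, z⟫ * ⟪y, z⟫)
    (by
      intro x x' y
      rw [← integral_add (cont_integrable M hM x y) (cont_integrable M hM x' y)]
      congr 1
      funext z
      rw [inner_add_left]
      ring)
    (by
      intro c x y
      rw [smul_eq_mul, ← integral_const_mul]
      congr 1
      funext z
      rw [inner_smul_left, starRingEnd_apply, star_trivial]
      ring)
    (by
      intro x y y'
      rw [← integral_add (cont_integrable M hM x y) (cont_integrable M hM x y')]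
      congr 1
      funext z
      rw [inner_add_left]
      ring)
    (by
      intro c x y
      rw [smul_eq_mul, ← integral_const_mul]
      congr 1
      funext z
      rw [inner_smul_left, starRingEnd_apply, star_trivial]
      ring)

lemma BM_apply (M : Set (E d)) (hM : IsCompact M) (x y : E d) :
    BM M hM x y = ∫ z in M, ⟪x, z⟫ * ⟪y, z⟫ := rfl

lemma BM_pos (M : Set (E d)) (hM : Body M) (x : E d) (hx : x ≠ 0) :
    0 < BM M hM.compact x x := by
  rw [BM_apply]
  have h1 : ∀ z : E d, 0 ≤ ⟪x, z⟫ * ⟪x, z⟫ := fun z => mul_self_nonneg _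
  rw [setIntegral_pos_iff_support_of_nonneg_ae (ae_of_all _ h1)
    (cont_integrable M hM.compact x x)]
  have hopen : IsOpen (interior M ∩ {z : E d | ⟪x, z⟫ ≠ 0}) := by
    apply isOpen_interior.inter
    exact isOpen_ne_fun (by fun_prop) continuous_const
  have hne : (interior M ∩ {z : E d | ⟪x, z⟫ ≠ 0}).Nonempty := by
    obtain ⟨y, hy⟩ := hM.inter
    obtain ⟨ε, hε, hball⟩ := Metric.isOpen_iff.mp isOpen_interior y hy
    by_cases h : ⟪x, y⟫ = 0
    · have hxn : 0 < ‖x‖ := norm_pos_iff.mpr hx
      refine ⟨y + (ε / 2 / ‖x‖) • x, hball ?_, ?_⟩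
      · rw [mem_ball, dist_eq_norm, add_sub_cancel_left, norm_smul, Real.norm_eq_abs,
          abs_of_pos (by positivity), div_mul_cancel₀ _ hxn.ne']
        linarith
      · show ⟪x, y + (ε / 2 / ‖x‖) • x⟫ ≠ 0
        rw [inner_add_right, h, inner_smul_right, real_inner_self_eq_norm_sq, zero_add]
        positivity
    · exact ⟨y, hy, h⟩
  refine (hopen.measure_pos volume hne).trans_le (measure_mono ?_)
  rintro z ⟨hz1, hz2⟩
  exact ⟨mul_self_ne_zero.mpr hz2, interior_subset hz1⟩

theorem iner : S_INER := by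
  intro d M hM
  have hMc := hM.compact
  set B := BM M hMc with hB
  have hsymm : LinearMap.IsSymm B := by
    constructor
    intro x y
    show BM M hMc x y = BM M hMc y x
    rw [BM_apply, BM_apply]
    congr 1
    funext z
    ring
  obtain ⟨v, hv⟩ := LinearMap.BilinForm.exists_orthogonal_basis hsymm
  have hfin : finrank ℝ (E d) = d := by rw [finrank_euclideanSpace, Fintype.card_fin]
  set v' : Basis (Fin d) ℝ (E d) := v.reindex (finCongr hfin) with hv'
  have hvo : ∀ i j, i ≠ j → B (v' i) (v' j) = 0 := by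
    intro i j hij
    rw [hv', Basis.reindex_apply, Basis.reindex_apply]
    apply hv
    intro h
    exact hij ((finCongr hfin).symm.injective h)
  have hvp : ∀ i, 0 < B (v' i) (v' i) := fun i => BM_pos M hM _ (v'.ne_zero i)
  set q : Fin d → ℝ := fun i => (Real.sqrt (B (v' i) (v' i)))⁻¹ with hq
  have hqpos : ∀ i, 0 < q i := fun i => inv_pos.mpr (Real.sqrt_pos.mpr (hvp i))
  set c : Fin d → E d := fun i => q i • v' i with hc
  have hcc : ∀ i j, B (c i) (c j) = if i = j then 1 else 0 := by
    intro i j
    rw [hc]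
    dsimp only
    rw [LinearMap.map_smul₂, map_smul, smul_eq_mul, smul_eq_mul]
    split_ifs with h
    · subst h
      have h1 := Real.mul_self_sqrt (hvp i).le
      have h2 : Real.sqrt (B (v' i) (v' i)) ≠ 0 := (Real.sqrt_pos.mpr (hvp i)).ne'
      rw [hq]
      dsimp only
      nth_rewrite 3 [← h1]
      field_simp
    · rw [hvo i j h]
      ring
  -- the linear map
  set A' : E d →ₗ[ℝ] E d :=
    { toFun := fun x => ∑ i, x i • c i
      map_add' := by
        intro x y
        rw [← Finset.sum_add_distrib]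
        apply Finset.sum_congr rfl
        intro i _
        rw [← add_smul]
        rfl
      map_smul' := by
        intro r x
        rw [RingHom.id_apply, Finset.smul_sum]
        apply Finset.sum_congr rfl
        intro i _
        show (r * x i) • c i = r • (x i • c i)
        rw [mul_smul] } with hA'
  have hA'a : ∀ x, A' x = ∑ i, x i • c i := fun x => rfl
  have hBA : ∀ x y, B (A' x) (A' y) = ⟪x, y⟫ := by
    intro x y
    have hs1 : ∀ w, B (∑ i, x i • c i) w = ∑ i, x i • B (c i) w := by
      intro w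
      rw [map_sum B, LinearMap.sum_apply]
      apply Finset.sum_congr rfl
      intro i _
      rw [map_smul, LinearMap.smul_apply]
    rw [hA'a, hA'a, hs1, PiLp.inner_apply]
    apply Finset.sum_congr rfl
    intro i _
    rw [map_sum, Finset.smul_sum]
    rw [Finset.sum_eq_single i]
    · rw [map_smul, hcc, if_pos rfl, smul_eq_mul, smul_eq_mul, mul_one, mul_comm]
      rfl
    · intro j _ hj
      rw [map_smul, hcc, if_neg (Ne.symm hj), smul_zero, smul_zero]
    · intro h
      exact absurd (Finset.mem_univ i) h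
  have hA'inj : Function.Injective A' := by
    rw [injective_iff_map_eq_zero]
    intro x hx
    have h1 := hBA x x
    rw [hx, map_zero] at h1
    have h2 : ⟪x, x⟫ = 0 := by rw [← h1]
    exact inner_self_eq_zero.mp h2
  set AT : E d ≃ₗ[ℝ] E d := LinearEquiv.ofInjectiveEndo A' hA'inj with hAT
  have hATa : ∀ x, AT x = A' x := fun x => rfl
  -- the adjoint
  set Aad : E d →ₗ[ℝ] E d := LinearMap.adjoint A' with hAad
  have hAin : ∀ x z, ⟪x, Aad z⟫ = ⟪A' x, z⟫ := fun x z => LinearMap.adjoint_inner_right A' x z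
  have hAinj : Function.Injective Aad := by
    rw [injective_iff_map_eq_zero]
    intro z hz
    obtain ⟨x, hx⟩ := AT.surjective z
    have h1 := hAin x z
    rw [hz, inner_zero_right, ← hATa, hx] at h1
    exact inner_self_eq_zero.mp h1.symm
  set A : E d ≃ₗ[ℝ] E d := LinearEquiv.ofInjectiveEndo Aad hAinj with hA
  have hAa : ∀ x, A x = Aad x := fun x => rfl
  refine ⟨A, fun R hR => ?_⟩
  have hM'c : IsCompact (A '' M) := hMc.image A.toContinuousLinearEquiv.continuous
  have hdA : 0 < |LinearMap.det (A : E d →ₗ[ℝ] E d)| := abs_pos.mpr (LinearEquiv.isUnit_det' A).ne_zero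
  have hP : ∀ x y : E d, ∫ z in A '' M, ⟪x, z⟫ * ⟪y, z⟫ =
      |LinearMap.det (A : E d →ₗ[ℝ] E d)| * ⟪x, y⟫ := by
    intro x y
    rw [integral_image_lin A M hMc, ← hBA x y, hB, BM_apply]
    congr 2
    funext z
    rw [hAa, hAin, hAin]
  -- `|det R| = 1`
  have hvolM : volume M ≠ 0 := by
    have h1 := isOpen_interior.measure_pos (μ := (volume : Measure (E d))) (U := interior M) hM.inter
    exact (h1.trans_le (measure_mono interior_subset)).ne'
  have hvolM' : volume (A '' M) ≠ 0 := by
    have h1 := Measure.addHaar_image_linearMap (volume : Measure (E d)) (A : E d →ₗ[ℝ] E d) M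
    have h2 : volume (A '' M) = ENNReal.ofReal |LinearMap.det (A : E d →ₗ[ℝ] E d)| * volume M := h1
    rw [h2]
    exact mul_ne_zero (ENNReal.ofReal_pos.mpr hdA).ne' hvolM
  have hdR : |LinearMap.det (R : E d →ₗ[ℝ] E d)| = 1 := by
    have h1 := Measure.addHaar_image_linearMap (volume : Measure (E d)) (R : E d →ₗ[ℝ] E d) (A '' M)
    have h2 : volume (A '' M) =
        ENNReal.ofReal |LinearMap.det (R : E d →ₗ[ℝ] E d)| * volume (A '' M) := by
      rw [← h1]
      show volume (A '' M) = volume (R '' (A '' M))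
      rw [hR]
    have h3 : ENNReal.ofReal |LinearMap.det (R : E d →ₗ[ℝ] E d)| = 1 := by
      have h4 : 1 * volume (A '' M) =
        ENNReal.ofReal |LinearMap.det (R : E d →ₗ[ℝ] E d)| * volume (A '' M) := by
        rw [one_mul]; exact h2
      exact ((ENNReal.mul_left_inj hvolM' hM'c.measure_lt_top.ne).mp h4).symm
    rwa [ENNReal.ofReal_eq_one] at h3
  set RT : E d →ₗ[ℝ] E d := LinearMap.adjoint (R : E d →ₗ[ℝ] E d) with hRT
  have hRin : ∀ x z, ⟪x, R z⟫ = ⟪RT x, z⟫ := fun x z =>
    (LinearMap.adjoint_inner_left (R : E d →ₗ[ℝ] E d) z x).symm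
  have hiso : ∀ x y, ⟪RT x, RT y⟫ = ⟪x, y⟫ := by
    intro x y
    have h1 := hP (RT x) (RT y)
    have h2 := hP x y
    have h3 : ∫ z in A '' M, ⟪RT x, z⟫ * ⟪RT y, z⟫ = ∫ z in A '' M, ⟪x, z⟫ * ⟪y, z⟫ := by
      have h4 := integral_image_lin R (A '' M) hM'c (fun z => ⟪x, z⟫ * ⟪y, z⟫)
      rw [hR, hdR, one_mul] at h4
      rw [h4]
      congr 1
      funext z
      rw [hRin, hRin]
    rw [h1, h2] at h3
    exact mul_left_cancel₀ hdA.ne' h3
  have hRRT : ∀ x, R (RT x) = x := by
    intro x
    apply ext_inner_left ℝ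
    intro y
    rw [hRin, hiso]
  intro x
  obtain ⟨y, hy⟩ : ∃ y, RT y = x := by
    have hinj : Function.Injective RT := by
      intro a b hab
      rw [← hRRT a, hab, hRRT b]
    exact LinearMap.injective_iff_surjective.mp hinj x
  rw [← hy, hRRT]
  have h1 := hiso y y
  rw [real_inner_self_eq_norm_sq, real_inner_self_eq_norm_sq] at h1
  exact ((pow_left_inj₀ (norm_nonneg _) (norm_nonneg _) two_ne_zero).mp h1).symm

end Pool.Agent.W369.GM
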