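import Mathlib
import Pool.Agent.W369.GM.Defs
import Pool.Agent.W369.GM.Basic

set_option autoImplicit false

/-!
# The local inequality for midpoints
-/

namespace Pool.Agent.W369.GM

open MeasureTheory Set Metric
open scoped RealInnerProductSpace

variable {d : ℕ}

/-- zero is an interior point of a body -/
lemma zero_mem_interior (M : Set (E d)) (hM : Body M) : (0 : E d) ∈ interior M := by
  obtain ⟨y, hy⟩ := hM.inter
  have h1 : -y ∈ interior M := by
    have h2 : -M = M := by
      ext x
      rw [Set.mem_neg]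
      constructor
      · intro h
        have := hM.symm _ h
        rwa [neg_neg] at this
      · intro h
        exact hM.symm _ h
    have h3 : interior M = interior (-M) := by rw [h2]
    rw [h3]
    have h4 : interior (-M) = -interior M := by
      have := (Homeomorph.neg (E d)).image_interior M
      rw [Homeomorph.coe_neg] at this
      rw [Set.image_neg_eq_neg, Set.image_neg_eq_neg] at this
      exact this.symm
    rw [h4, Set.mem_neg, neg_neg]
    exact hy
  have h2 := hM.convex.interior hy h1 (by norm_num : (0 : ℝ) ≤ 1 / 2)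
    (by norm_num : (0 : ℝ) ≤ 1 / 2) (by norm_num)
  have e : (1 / 2 : ℝ) • y + (1 / 2 : ℝ) • (-y) = 0 := by module
  rwa [e] at h2

/-- half the length is positive in the interior -/
lemma hf_pos (u : E d) (hu : ‖u‖ = 1) (M : Set (E d)) (hM : Body M) (x : E d) (hx : Inn u M x) :
    (slice u M x).Nonempty ∧ 0 < hf u M x := by
  obtain ⟨hux, c, hc, t1, ht1⟩ := hx
  obtain ⟨ε, hε, hball⟩ := Metric.isOpen_iff.mp isOpen_interior 0 (zero_mem_interior M hM)
  have hc0 : 0 < c := by linarith
  have hcx : ⟪u, c • x⟫ = 0 := by rw [inner_smul_right, hux, mul_zero]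
  have hp : c • x + t1 • u ∈ M := by
    have h1 : c • x - ⟪u, c • x⟫ • u + t1 • u ∈ M := ht1
    rwa [hcx, zero_smul, sub_zero] at h1
  have hq : ∀ τ : ℝ, |τ| < ε → t1 / c + (1 - 1 / c) * τ ∈ slice u M x := by
    intro τ hτ
    have h1 : τ • u ∈ M := by
      apply interior_subset
      apply hball
      rw [mem_ball_zero_iff, norm_smul, hu, mul_one, Real.norm_eq_abs]
      exact hτ
    have h3 : 1 / c ≤ 1 := by
      rw [div_le_one hc0]; exact hc.le
    have h2 := hM.convex hp h1 (by positivity : 0 ≤ 1 / c) (by linarith : 0 ≤ 1 - 1 / c)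
      (by ring)
    show x - ⟪u, x⟫ • u + (t1 / c + (1 - 1 / c) * τ) • u ∈ M
    have e : (1 / c) • (c • x + t1 • u) + (1 - 1 / c) • τ • u =
        x - ⟪u, x⟫ • u + (t1 / c + (1 - 1 / c) * τ) • u := by
      rw [hux, smul_add, smul_smul, smul_smul, smul_smul, one_div, inv_mul_cancel₀ hc0.ne']
      rw [zero_smul, sub_zero, one_smul, div_eq_inv_mul]
      module
    rwa [e] at h2
  have h1 := hq (ε / 2) (by rw [abs_of_pos (by positivity)]; linarith)
  have h2 := hq (-(ε / 2)) (by rw [abs_neg, abs_of_pos (by positivity)]; linarith)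
  have hne : (slice u M x).Nonempty := ⟨_, h1⟩
  refine ⟨hne, ?_⟩
  rw [mem_slice_iff u hu M hM.compact hM.convex x hne] at h1 h2
  have h3 : 0 < (1 - 1 / c) * ε := by
    apply mul_pos _ hε
    rw [sub_pos, div_lt_one hc0]
    exact hc
  unfold hf
  nlinarith [h1.2, h2.1]

set_option maxHeartbeats 4000000 in
theorem loc : S_STC → S_STV → S_STD → S_EXT → S_LOC := by
  intro hSTC hSTV hSTD hEXT d M D u hM hE hu x₀ hx₀
  classical
  have hd : 0 < d := by
    rcases Nat.eq_zero_or_pos d with h0 | h0
    · subst h0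
      have : u = 0 := Subsingleton.elim _ _
      rw [this, norm_zero] at hu
      norm_num at hu
    · exact h0
  have hMc := hM.compact
  have hMv := hM.convex
  set S := St u M with hS
  have hSE : Extr S D :=
    { compact := hSTC d u M hu hMc
      pos := hE.pos
      db := hSTD d u M D hu hMc hE.db
      vol := by rw [hS, hSTV d u M hu hMc, hE.vol] }
  obtain ⟨hx0ne, hhf⟩ := hf_pos u hu M hM x₀ hx₀
  have hux0 : ⟪u, x₀⟫ = 0 := hx₀.1
  have hinn : ∀ (x : E d) (h : ℝ), ⟪u, x⟫ = 0 → ⟪u, x + h • u⟫ = h := by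
    intro x h hx
    rw [inner_add_right, inner_smul_right, hx, real_inner_self_eq_norm_sq, hu]
    ring
  -- the top point
  set wt : E d := x₀ + hf u M x₀ • u with hwt
  have hmemS : ∀ h : ℝ, x₀ + h • u ∈ S ↔ |h| ≤ hf u M x₀ := by
    intro h
    rw [hS, mem_St_iff u hu M hMc hMv, slice_add u hu, hinn x₀ h hux0]
    have e : hf u M (x₀ + h • u) = hf u M x₀ := by
      unfold hf top bot
      rw [slice_add u hu]
    rw [e]
    exact ⟨fun h => h.2, fun h => ⟨hx0ne, h⟩⟩
  have hwS : wt ∈ S := by
    rw [hwt, hmemS, abs_of_pos hhf]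
  have hwf : wt ∈ frontier S := by
    rw [hSE.compact.isClosed.frontier_eq]
    refine ⟨hwS, fun hint => ?_⟩
    obtain ⟨ε, hε, hball⟩ := Metric.isOpen_iff.mp isOpen_interior wt hint
    have h1 : wt + (ε / 2) • u ∈ S := by
      apply interior_subset
      apply hball
      rw [mem_ball, dist_eq_norm, add_sub_cancel_left, norm_smul, hu, mul_one, Real.norm_eq_abs,
        abs_of_pos (by positivity)]
      linarith
    have e : wt + (ε / 2) • u = x₀ + (hf u M x₀ + ε / 2) • u := by
      rw [hwt]; module
    rw [e, hmemS, abs_of_pos (by positivity)] at h1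
    linarith
  obtain ⟨w, hwS', hwD, k, hi₀⟩ := hEXT d S D hd hSE wt hwf
  -- the basis
  obtain ⟨b, hb⟩ := exists_basis u hu k
  set cL : E d →ₗ[ℝ] (Fin d → ℝ) := LinearMap.pi (fun j => innerₛₗ ℝ (b j)) with hcL
  have hcLa : ∀ (z : E d) (j : Fin d), cL z j = ⟪b j, z⟫ := fun z j => rfl
  have hcLk : ∀ z : E d, cL z k = ⟪u, z⟫ := by
    intro z
    rw [hcLa, hb]
  have hcLu : ∀ j : Fin d, j ≠ k → cL u j = 0 := by
    intro j hj
    rw [hcLa, ← hb]
    exact b.orthonormal.2 hj
  set t : Fin d → ℝ := fun i => ⟪u, w i⟫ with ht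
  set m : Fin d → ℝ := fun i => mid u M (w i) with hm
  have hwne : ∀ i, (slice u M (w i)).Nonempty ∧ |t i| ≤ hf u M (w i) := by
    intro i
    have := hwS' i
    rw [hS, mem_St_iff u hu M hMc hMv] at this
    exact this
  set W : Matrix (Fin d) (Fin d) ℝ := Matrix.of fun i => cL (w i) with hW
  set MM : Matrix (Fin d) (Fin d) ℝ := Matrix.of fun i => Function.update (cL (w i)) k (m i)
    with hMM
  have hdtW : |W.det| = D := by
    rw [← hwD, dt_basis b]
    rfl
  obtain ⟨s, hs, hsW⟩ : ∃ s : ℝ, (s = 1 ∨ s = -1) ∧ s * W.det = D := by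
    rcases abs_choice W.det with h | h
    · exact ⟨1, Or.inl rfl, by rw [one_mul, ← h, hdtW]⟩
    · exact ⟨-1, Or.inr rfl, by rw [neg_one_mul, ← h, hdtW]⟩
  have hsabs : ∀ y : ℝ, |y| ≤ D → s * y ≤ D ∧ -(s * y) ≤ D := by
    intro y hy
    have := abs_le.mp hy
    rcases hs with rfl | rfl
    · constructor <;> linarith [this.1, this.2]
    · constructor <;> linarith [this.1, this.2]
  -- the linear functionals
  set F : E d →ₗ[ℝ] ℝ :=
    s • ((Matrix.detRowAlternating.toMultilinearMap.toLinearMap W k) ∘ₗ cL) with hF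
  set prL : E d →ₗ[ℝ] E d := LinearMap.id - (innerₛₗ ℝ u).smulRight u with hprL
  set H : E d →ₗ[ℝ] ℝ :=
    s • ((Matrix.detRowAlternating.toMultilinearMap.toLinearMap MM k) ∘ₗ cL ∘ₗ prL) with hH
  have hFa : ∀ z, F z = s * (W.updateRow k (cL z)).det := fun z => rfl
  have hpr : ∀ z : E d, ⟪u, z⟫ = 0 → prL z = z := by
    intro z hz
    show z - ⟪u, z⟫ • u = z
    rw [hz, zero_smul, sub_zero]
  have hHa : ∀ z : E d, ⟪u, z⟫ = 0 → H z = s * (MM.updateRow k (cL z)).det := by
    intro z hz
    have : H z = s * (MM.updateRow k (cL (prL z))).det := rfl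
    rw [this, hpr z hz]
  set N : E d → Matrix (Fin d) (Fin d) ℝ := fun x => W.updateRow k (cL x) with hN
  -- the column functional
  set Lx : E d → (Fin d → ℝ) → ℝ := fun x c => (Matrix.cramer (N x) c) k with hLx
  have hLxa : ∀ x c, Lx x c = ((N x).updateCol k c).det := fun x c => by
    rw [hLx]
    exact Matrix.cramer_apply _ _ _
  have hLadd : ∀ x c c', Lx x (c + c') = Lx x c + Lx x c' := by
    intro x c c'
    show (Matrix.cramer (N x) (c + c')) k = _
    rw [map_add]
    rfl
  have hLsmul : ∀ x (r : ℝ) c, Lx x (r • c) = r * Lx x c := by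
    intro x r c
    show (Matrix.cramer (N x) (r • c)) k = _
    rw [map_smul]
    rfl
  set t0 : Fin d → ℝ := fun i => if i = k then 0 else t i with ht0
  set m0 : Fin d → ℝ := fun i => if i = k then 0 else m i with hm0
  set δ : Fin d → ℝ := fun i => if i = k then 1 else 0 with hδ
  have hF1 : ∀ (x : E d) (h : ℝ), ⟪u, x⟫ = 0 → F (x + h • u) = s * Lx x (t0 + h • δ) := by
    intro x h hx
    rw [hFa, hLxa]
    congr 2
    ext i j
    by_cases hi : i = k
    · rw [hi]
      by_cases hj : j = k
      · rw [hj]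
        rw [Matrix.updateRow_self, Matrix.updateCol_self, hcLk, hinn x h hx]
        simp [ht0, hδ]
      · rw [Matrix.updateRow_self, Matrix.updateCol_ne hj]
        show cL (x + h • u) j = (W.updateRow k (cL x)) k j
        rw [Matrix.updateRow_self, map_add, map_smul]
        show cL x j + h • cL u j = cL x j
        rw [hcLu j hj, smul_zero, add_zero]
    · by_cases hj : j = k
      · rw [hj]
        rw [Matrix.updateRow_ne hi, Matrix.updateCol_self]
        show cL (w i) k = _
        rw [hcLk]
        simp [ht0, hδ, hi, ht]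
      · rw [Matrix.updateRow_ne hi, Matrix.updateCol_ne hj]
        show _ = (W.updateRow k (cL x)) i j
        rw [Matrix.updateRow_ne hi]
  have hFx : ∀ x : E d, ⟪u, x⟫ = 0 → F x = s * Lx x t0 := by
    intro x hx
    have := hF1 x 0 hx
    rwa [zero_smul, add_zero, zero_smul, add_zero] at this
  set c0 : ℝ := F u with hc0
  have hLδ : ∀ x : E d, ⟪u, x⟫ = 0 → s * Lx x δ = c0 := by
    intro x hx
    have h1 := hF1 x 1 hx
    rw [one_smul, one_smul, map_add, hLadd, mul_add, ← hFx x hx] at h1
    linarith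
  have hH1 : ∀ x : E d, ⟪u, x⟫ = 0 → H x = s * Lx x m0 := by
    intro x hx
    rw [hHa x hx, hLxa]
    congr 2
    ext i j
    by_cases hi : i = k
    · rw [hi]
      by_cases hj : j = k
      · rw [hj]
        rw [Matrix.updateRow_self, Matrix.updateCol_self, hcLk, hx]
        simp [hm0]
      · rw [Matrix.updateRow_self, Matrix.updateCol_ne hj]
        show cL x j = (W.updateRow k (cL x)) k j
        rw [Matrix.updateRow_self]
    · by_cases hj : j = k
      · rw [hj]
        rw [Matrix.updateRow_ne hi, Matrix.updateCol_self]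
        show Function.update (cL (w i)) k (m i) k = _
        simp [hm0, hi]
      · rw [Matrix.updateRow_ne hi, Matrix.updateCol_ne hj]
        show Function.update (cL (w i)) k (m i) j = (W.updateRow k (cL x)) i j
        rw [Matrix.updateRow_ne hi, Function.update_of_ne hj]
        rfl
  -- frames in `M`
  have hframe : ∀ (x : E d) (σ : ℝ) (r : Fin d → ℝ), ⟪u, x⟫ = 0 → σ ∈ slice u M x →
      (∀ i, r i ∈ slice u M (w i)) →
      |Lx x (fun i => if i = k then σ else r i)| ≤ D := by
    intro x σ r hx hσ hr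
    set v : Fin d → E d := fun i => if i = k then x + σ • u else w i + (r i - t i) • u with hv
    have hvM : ∀ i, v i ∈ M := by
      intro i
      by_cases hi : i = k
      · rw [hv]
        simp only [hi, if_true]
        have := point_mem u M x σ hσ
        rwa [hx, sub_zero] at this
      · rw [hv]
        simp only [hi, if_false]
        exact point_mem u M (w i) (r i) (hr i)
    have h1 := hE.db v hvM
    rw [dt_basis b] at h1
    have e : (Matrix.of fun i j => ⟪b j, v i⟫) =
        (N x).updateCol k (fun i => if i = k then σ else r i) := by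
      ext i j
      rw [Matrix.of_apply, ← hcLa]
      by_cases hi : i = k
      · rw [hi]
        have hvi : v k = x + σ • u := by rw [hv]; simp
        rw [hvi]
        by_cases hj : j = k
        · rw [hj]
          rw [Matrix.updateCol_self, hcLk, hinn x σ hx]
          simp
        · rw [Matrix.updateCol_ne hj]
          show cL (x + σ • u) j = (W.updateRow k (cL x)) k j
          rw [Matrix.updateRow_self, map_add, map_smul]
          show cL x j + σ • cL u j = cL x j
          rw [hcLu j hj, smul_zero, add_zero]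
      · have hvi : v i = w i + (r i - t i) • u := by rw [hv]; simp [hi]
        rw [hvi]
        by_cases hj : j = k
        · rw [hj]
          rw [Matrix.updateCol_self, hcLk, inner_add_right, inner_smul_right,
            real_inner_self_eq_norm_sq, hu]
          simp [hi, ht]
        · rw [Matrix.updateCol_ne hj]
          show _ = (W.updateRow k (cL x)) i j
          rw [Matrix.updateRow_ne hi, map_add, map_smul]
          show cL (w i) j + (r i - t i) • cL u j = cL (w i) j
          rw [hcLu j hj, smul_zero, add_zero]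
    rw [e, ← hLxa] at h1
    exact h1
  have hmt : ∀ i, m i + t i ∈ slice u M (w i) ∧ m i - t i ∈ slice u M (w i) := by
    intro i
    obtain ⟨h1, h2⟩ := hwne i
    have h3 := abs_le.mp h2
    rw [mem_slice_iff u hu M hMc hMv _ h1, mem_slice_iff u hu M hMc hMv _ h1]
    have h4 : m i = (top u M (w i) + bot u M (w i)) / 2 := rfl
    have h5 : hf u M (w i) = (top u M (w i) - bot u M (w i)) / 2 := rfl
    rw [h5] at h3
    rw [h4]
    obtain ⟨h6, h7⟩ := h3
    refine ⟨⟨?_, ?_⟩, ⟨?_, ?_⟩⟩ <;> linarith
  have key : ∀ (x : E d) (σ : ℝ), ⟪u, x⟫ = 0 → σ ∈ slice u M x →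
      F x + H x + σ * c0 ≤ D ∧ F x - H x - σ * c0 ≤ D := by
    intro x σ hx hσ
    have h1 := hsabs _ (hframe x σ (fun i => m i + t i) hx hσ (fun i => (hmt i).1))
    have h2 := hsabs _ (hframe x σ (fun i => m i - t i) hx hσ (fun i => (hmt i).2))
    have e1 : (fun i => if i = k then σ else m i + t i) = t0 + m0 + σ • δ := by
      funext i
      simp only [ht0, hm0, hδ, Pi.add_apply, Pi.smul_apply, smul_eq_mul]
      split_ifs <;> ring
    have e2 : (fun i => if i = k then σ else m i - t i) = (-1 : ℝ) • t0 + m0 + σ • δ := by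
      funext i
      simp only [ht0, hm0, hδ, Pi.add_apply, Pi.smul_apply, smul_eq_mul]
      split_ifs <;> ring
    rw [e1] at h1
    rw [e2] at h2
    rw [hLadd, hLadd, hLsmul, mul_add, mul_add, ← hFx x hx, ← hH1 x hx] at h1
    rw [hLadd, hLadd, hLsmul, hLsmul, mul_add, mul_add, ← hH1 x hx] at h2
    have h3 : s * (σ * Lx x δ) = σ * c0 := by rw [← hLδ x hx]; ring
    have h4 : s * (-1 * Lx x t0) = -F x := by rw [hFx x hx]; ring
    rw [h3] at h1 h2
    rw [h4] at h2
    constructor
    · linarith [h1.1]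
    · linarith [h2.2]
  -- values at `x₀`
  have hFwt : F wt = D := by
    rw [hFa, ← hi₀]
    have : W.updateRow k (cL (w k)) = W := by
      ext i j
      by_cases hi : i = k
      · rw [hi]
        rw [Matrix.updateRow_self]
        rfl
      · rw [Matrix.updateRow_ne hi]
    rw [this, hsW]
  have hFx0 : F x₀ + hf u M x₀ * c0 = D := by
    rw [hwt, map_add, map_smul, smul_eq_mul] at hFwt
    exact hFwt
  have hends : ∀ x : E d, (slice u M x).Nonempty →
      top u M x ∈ slice u M x ∧ bot u M x ∈ slice u M x := by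
    intro x hx
    have h1 := bot_le_top u hu M hMc x hx
    rw [mem_slice_iff u hu M hMc hMv x hx, mem_slice_iff u hu M hMc hMv x hx]
    exact ⟨⟨h1, le_rfl⟩, ⟨le_rfl, h1⟩⟩
  have hc0nn : 0 ≤ c0 := by
    obtain ⟨h1, h2⟩ := hends x₀ hx0ne
    have h3 := (key x₀ _ hux0 h2).1
    have h4 := (key x₀ _ hux0 h1).2
    have h5 : hf u M x₀ = (top u M x₀ - bot u M x₀) / 2 := rfl
    rw [h5] at hFx0 hhf
    have h6 : (top u M x₀ - bot u M x₀) * c0 ≥ 0 := by nlinarith
    by_contra hneg
    push Not at hneg
    nlinarith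
  have hmain : ∀ x : E d, ⟪u, x⟫ = 0 → (slice u M x).Nonempty →
      |mid u M x * c0 + H x| ≤ D - F x - hf u M x * c0 := by
    intro x hx hxne
    obtain ⟨h1, h2⟩ := hends x hxne
    have h3 := (key x _ hx h1).1
    have h4 := (key x _ hx h2).2
    have h5 : hf u M x = (top u M x - bot u M x) / 2 := rfl
    have h6 : mid u M x = (top u M x + bot u M x) / 2 := rfl
    rw [h5, h6, abs_le]
    constructor <;> nlinarith
  have hc0pos : 0 < c0 := by
    rcases hc0nn.lt_or_eq with h | h
    · exact h
    · exfalso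
      obtain ⟨c, hc, hcne⟩ := hx₀.2
      have h1 := hmain (c • x₀) (by rw [inner_smul_right, hux0, mul_zero]) hcne
      have h2 := (abs_nonneg _).trans h1
      rw [← h] at h2 hFx0
      rw [map_smul, smul_eq_mul] at h2
      have h3 : F x₀ = D := by linarith
      rw [h3] at h2
      have := hE.pos
      nlinarith
  refine ⟨D / c0, -(c0⁻¹ • H), c0⁻¹ • F, ?_, ?_⟩
  · intro x hx hxne
    have h1 := hmain x hx hxne
    have e1 : mid u M x - (-(c0⁻¹ • H)) x = (mid u M x * c0 + H x) / c0 := by
      show mid u M x - (-(c0⁻¹ * H x)) = _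
      field_simp
      ring
    have e2 : D / c0 - (c0⁻¹ • F) x - hf u M x = (D - F x - hf u M x * c0) / c0 := by
      show D / c0 - c0⁻¹ * F x - hf u M x = _
      field_simp
    rw [e1, e2, abs_div, abs_of_pos hc0pos]
    exact div_le_div_of_nonneg_right h1 hc0pos.le
  · show D / c0 - c0⁻¹ * F x₀ - hf u M x₀ = 0
    have h1 : D = F x₀ + hf u M x₀ * c0 := hFx0.symm
    rw [h1]
    field_simp
    ring

end Pool.Agent.W369.GM
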