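import Mathlib
import Pool.Agent.W369.GM.Defs
import Pool.Agent.W369.GM.Basic

set_option autoImplicit false

/-!
# The Steiner symmetral of a compact set is compact
-/

namespace Pool.Agent.W369.GM

open MeasureTheory Set Metric Filter Topology
open scoped RealInnerProductSpace

variable {d : ℕ}

/-- upper semicontinuity of the slices -/
lemma slice_usc (u : E d) (hu : ‖u‖ = 1) (K : Set (E d)) (hK : IsCompact K) (x : E d)
    (U : Set ℝ) (hU : IsOpen U) (hx : slice u K x ⊆ U) : ∀ᶠ y in 𝓝 x, slice u K y ⊆ U := by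
  obtain ⟨R, hR⟩ := hK.isBounded.exists_norm_le
  have hC : IsCompact (Icc (-R) R \ U) := isCompact_Icc.diff hU
  have h1 : ∀ᶠ y in 𝓝 x, ∀ t ∈ Icc (-R) R \ U, y - ⟪u, y⟫ • u + t • u ∉ K := by
    apply hC.eventually_forall_of_forall_eventually (P := fun y t => y - ⟪u, y⟫ • u + t • u ∉ K)
    intro t ht
    have hcont : Continuous fun z : E d × ℝ => z.1 - ⟪u, z.1⟫ • u + z.2 • u := by fun_prop
    have hopen : IsOpen {z : E d × ℝ | z.1 - ⟪u, z.1⟫ • u + z.2 • u ∉ K} :=
      hK.isClosed.isOpen_compl.preimage hcont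
    exact hopen.mem_nhds (fun h => ht.2 (hx h))
  filter_upwards [h1] with y hy t ht
  by_contra hcon
  apply hy t _ ht
  refine ⟨?_, hcon⟩
  have h2 := hR _ ht
  have h3 := abs_real_inner_le_norm u (y - ⟪u, y⟫ • u + t • u)
  rw [inner_slice u hu, hu, one_mul] at h3
  exact abs_le.mp (h3.trans h2)

theorem stc : S_STC := by
  intro d u K hu hK
  obtain ⟨R, hR⟩ := hK.isBounded.exists_norm_le
  apply Metric.isCompact_of_isClosed_isBounded
  · -- closed
    have hset : St u K = {x | (slice u K x).Nonempty} ∩
        {x | ENNReal.ofReal (2 * |⟪u, x⟫|) ≤ volume (slice u K x)} := rfl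
    rw [hset]
    apply IsClosed.inter
    · rw [← isOpen_compl_iff, isOpen_iff_mem_nhds]
      intro x hx
      have h0 : slice u K x = ∅ := Set.not_nonempty_iff_eq_empty.mp hx
      filter_upwards [slice_usc u hu K hK x ∅ isOpen_empty (by rw [h0])] with y hy
      exact Set.not_nonempty_iff_eq_empty.mpr (Set.subset_empty_iff.mp hy)
    · rw [← isOpen_compl_iff, isOpen_iff_mem_nhds]
      intro x hx
      have hx' : volume (slice u K x) < ENNReal.ofReal (2 * |⟪u, x⟫|) := not_le.mp hx
      obtain ⟨c, hc1, hc2⟩ := exists_between hx'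
      have hT := slice_compact u hu K x hK
      have h1 := tendsto_measure_cthickening_of_isCompact (μ := (volume : Measure ℝ)) hT
      have h2 : ∀ᶠ δ in 𝓝 (0 : ℝ), volume (cthickening δ (slice u K x)) < c :=
        h1.eventually (gt_mem_nhds hc1)
      obtain ⟨ε, hε, hball⟩ := Metric.eventually_nhds_iff.mp h2
      have h3 : volume (cthickening (ε / 2) (slice u K x)) < c := by
        apply hball
        rw [Real.dist_eq, sub_zero, abs_of_pos (by positivity)]
        linarith
      have h4 := slice_usc u hu K hK x (thickening (ε / 2) (slice u K x)) isOpen_thickening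
        (self_subset_thickening (by positivity) _)
      have hcont : Continuous fun y : E d => ENNReal.ofReal (2 * |⟪u, y⟫|) := by
        apply ENNReal.continuous_ofReal.comp
        fun_prop
      have h5 : ∀ᶠ y in 𝓝 x, c < ENNReal.ofReal (2 * |⟪u, y⟫|) :=
        hcont.continuousAt.eventually (lt_mem_nhds hc2)
      filter_upwards [h4, h5] with y hy1 hy2
      show ¬ (ENNReal.ofReal (2 * |⟪u, y⟫|) ≤ volume (slice u K y))
      rw [not_le]
      exact ((measure_mono (hy1.trans (thickening_subset_cthickening _ _))).trans_lt h3).trans hy2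
  · rw [isBounded_iff_forall_norm_le]
    refine ⟨3 * R, fun x hx => ?_⟩
    obtain ⟨⟨t, ht⟩, h2⟩ := hx
    have hsub : slice u K x ⊆ Icc (-R) R := by
      intro s hs
      have h3 := hR _ hs
      have h4 := abs_real_inner_le_norm u (x - ⟪u, x⟫ • u + s • u)
      rw [inner_slice u hu, hu, one_mul] at h4
      exact abs_le.mp (h4.trans h3)
    have hR0 : 0 ≤ R := (norm_nonneg _).trans (hR _ ht)
    have h3 := h2.trans (measure_mono hsub)
    rw [Real.volume_Icc, ENNReal.ofReal_le_ofReal_iff (by linarith)] at h3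
    have h4 : |⟪u, x⟫| ≤ R := by linarith
    have h5 : |t| ≤ R := abs_le.mpr (hsub ht)
    have h6 := hR _ ht
    have e : x = (x - ⟪u, x⟫ • u + t • u) + (⟪u, x⟫ • u - t • u) := by module
    rw [e]
    refine (norm_add_le _ _).trans ?_
    have h7 : ‖⟪u, x⟫ • u - t • u‖ ≤ R + R := by
      refine (norm_sub_le _ _).trans ?_
      rw [norm_smul, norm_smul, hu, mul_one, mul_one, Real.norm_eq_abs, Real.norm_eq_abs]
      linarith
    linarith

end Pool.Agent.W369.GM
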