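import Mathlib
import Pool.Agent.W369.GM.Defs
import Pool.Agent.W369.GM.Basic

set_option autoImplicit false

/-!
# Steiner symmetrisation does not increase the maximal determinant
-/

namespace Pool.Agent.W369.GM

open MeasureTheory Set Metric
open scoped RealInnerProductSpace

theorem std : S_STD := by
  intro d u K D hu hK hDB w hw
  classical
  have hd : 0 < d := by
    rcases Nat.eq_zero_or_pos d with h0 | h0
    · subst h0
      have : u = 0 := Subsingleton.elim _ _
      rw [this, norm_zero] at hu
      norm_num at hu
    · exact h0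
  set k : Fin d := ⟨0, hd⟩ with hk
  obtain ⟨b, hb⟩ := exists_basis u hu k
  set t : Fin d → ℝ := fun i => ⟪u, w i⟫ with ht
  set W : Matrix (Fin d) (Fin d) ℝ := Matrix.of fun i j => ⟪b j, w i⟫ with hW
  set f : (Fin d → ℝ) →ₗ[ℝ] ℝ := (LinearMap.proj k) ∘ₗ (Matrix.cramer W) with hf
  have hfa : ∀ s, f s = (W.updateCol k s).det := fun s => Matrix.cramer_apply _ _ _
  have hft : f t = W.det := by
    rw [hfa]
    congr 1
    ext i j
    by_cases hj : j = k
    · rw [hj, Matrix.updateCol_self]
      show ⟪u, w i⟫ = ⟪b k, w i⟫
      rw [hb]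
    · rw [Matrix.updateCol_ne hj]
  have hcomp : ∀ i, IsCompact (slice u K (w i)) := fun i => slice_compact u hu K (w i) hK
  have hne : ∀ i, (slice u K (w i)).Nonempty := fun i => (hw i).1
  set a : Fin d → ℝ := fun i => sSup (slice u K (w i)) with ha
  set c : Fin d → ℝ := fun i => sInf (slice u K (w i)) with hc
  have haS : ∀ i, a i ∈ slice u K (w i) := fun i => (hcomp i).sSup_mem (hne i)
  have hcS : ∀ i, c i ∈ slice u K (w i) := fun i => (hcomp i).sInf_mem (hne i)
  have hca : ∀ i, c i ≤ a i := fun i => csInf_le (hcomp i).bddBelow (haS i)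
  have htac : ∀ i, 2 * |t i| ≤ a i - c i := by
    intro i
    have h1 := (hw i).2
    have h2 : slice u K (w i) ⊆ Icc (c i) (a i) := fun x hx =>
      ⟨csInf_le (hcomp i).bddBelow hx, le_csSup (hcomp i).bddAbove hx⟩
    have h3 := h1.trans (measure_mono h2)
    rw [Real.volume_Icc, ENNReal.ofReal_le_ofReal_iff (by linarith [hca i])] at h3
    exact h3
  -- frames in `K`
  have hframe : ∀ s : Fin d → ℝ, (∀ i, s i ∈ slice u K (w i)) → |f s| ≤ D := by
    intro s hs
    set v : Fin d → E d := fun i => w i + (s i - t i) • u with hv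
    have hvK : ∀ i, v i ∈ K := fun i => point_mem u K (w i) (s i) (hs i)
    have h1 := hDB v hvK
    rw [dt_basis b] at h1
    have e : (Matrix.of fun i j => ⟪b j, v i⟫) = W.updateCol k s := by
      ext i j
      rw [Matrix.of_apply]
      show ⟪b j, w i + (s i - t i) • u⟫ = _
      rw [inner_add_right, inner_smul_right]
      by_cases hj : j = k
      · rw [hj, Matrix.updateCol_self, hb, real_inner_self_eq_norm_sq, hu]
        simp [ht]
      · rw [Matrix.updateCol_ne hj, ← hb, b.orthonormal.2 hj, mul_zero, add_zero]
        rfl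
    rw [e, ← hfa] at h1
    exact h1
  set C : Fin d → ℝ := fun i => f (Pi.single i 1) with hC
  have hfsum : ∀ s, f s = ∑ i, s i * C i := by
    intro s
    have := LinearMap.pi_apply_eq_sum_univ f s
    rw [this]
    apply Finset.sum_congr rfl
    intro i _
    rw [smul_eq_mul]
    congr 2
    funext j
    rw [Pi.single_apply]
    by_cases hij : i = j
    · rw [if_pos hij, if_pos hij.symm]
    · rw [if_neg hij, if_neg (Ne.symm hij)]
  set sp : Fin d → ℝ := fun i => if 0 ≤ C i then a i else c i with hsp
  set sm : Fin d → ℝ := fun i => if 0 ≤ C i then c i else a i with hsm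
  have hp := hframe sp (by
    intro i
    rw [hsp]
    dsimp only
    split_ifs
    · exact haS i
    · exact hcS i)
  have hm := hframe sm (by
    intro i
    rw [hsm]
    dsimp only
    split_ifs
    · exact hcS i
    · exact haS i)
  have hdiff : 2 * |f t| ≤ f sp - f sm := by
    rw [hfsum sp, hfsum sm, ← Finset.sum_sub_distrib]
    calc 2 * |f t| ≤ 2 * ∑ i, |t i * C i| := by
          rw [hfsum t]
          exact mul_le_mul_of_nonneg_left (Finset.abs_sum_le_sum_abs _ _) (by norm_num)
      _ = ∑ i, (2 * |t i|) * |C i| := by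
          rw [Finset.mul_sum]
          apply Finset.sum_congr rfl
          intro i _
          rw [abs_mul]
          ring
      _ ≤ ∑ i, (sp i * C i - sm i * C i) := by
          apply Finset.sum_le_sum
          intro i _
          have h1 := htac i
          rw [hsp, hsm]
          dsimp only
          split_ifs with h0
          · rw [abs_of_nonneg h0]
            nlinarith
          · push Not at h0
            rw [abs_of_neg h0]
            nlinarith
  rw [dt_basis b]
  show |W.det| ≤ D
  rw [← hft]
  have h1 := abs_le.mp hp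
  have h2 := abs_le.mp hm
  linarith [h1.2, h2.1]

end Pool.Agent.W369.GM
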